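import Pool.Agent.H98.S4.Targets

/-! Board scd_modules, module A2 (MP_eb32d7_co): two common neighbours in different blocks. -/

set_option autoImplicit false

namespace Pool.Agent.H50.S4

open Finset Pool.Agent.H98.S4

theorem fin4_two (a b : Fin 4) : ∃ x y : Fin 4, x ≠ y ∧ x ≠ a ∧ x ≠ b ∧ y ≠ a ∧ y ≠ b := by
  revert a b; decide

theorem fin4_three (a b c : Fin 4) : ∃ x : Fin 4, x ≠ a ∧ x ≠ b ∧ x ≠ c := by
  revert a b c; decide

theorem card_sub {V β : Type} [Fintype V] [DecidableEq β] (P : V → Prop) [DecidablePred P]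
    (g : V → β) (b : β) :
    (univ.filter (fun y : {x // P x} => g y.1 = b)).card =
      (univ.filter (fun y : V => P y ∧ g y = b)).card := by
  rw [← Finset.card_map (Function.Embedding.subtype P)]
  refine congrArg Finset.card ?_
  ext y
  simp only [mem_map, mem_filter, mem_univ, true_and, Function.Embedding.coe_subtype]
  constructor
  · rintro ⟨a, ha, rfl⟩
    exact ⟨a.2, ha⟩
  · rintro ⟨h1, h2⟩
    exact ⟨⟨y, h1⟩, h2, rfl⟩

theorem two_nbrs {V : Type} {G : SimpleGraph V} (h : Deg2 G) (q : V) :
    ∃ z1 z2 : V, ∀ z, G.Adj q z → z = z1 ∨ z = z2 := by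
  by_cases h1 : ∃ z1, G.Adj q z1
  · obtain ⟨z1, hz1⟩ := h1
    by_cases h2 : ∃ z2, G.Adj q z2 ∧ z2 ≠ z1
    · obtain ⟨z2, hz2, hne⟩ := h2
      refine ⟨z1, z2, fun z hz => ?_⟩
      rcases h q z1 z2 z hz1 hz2 hz with h3 | h3 | h3
      · exact absurd h3.symm hne
      · exact Or.inl h3.symm
      · exact Or.inr h3.symm
    · refine ⟨z1, z1, fun z hz => Or.inl ?_⟩
      by_contra hne
      exact h2 ⟨z, hz, hne⟩
  · exact ⟨q, q, fun z hz => absurd ⟨z, hz⟩ h1⟩

theorem s4_A2 : T_A2 := by
  classical
  intro V β _ _ _ G f hD hB h0 hA u v w t huv hwt fuv uw vw ut vt fwt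
  -- neighbourhoods
  have Nu : ∀ z, G.Adj u z → z = w ∨ z = t := fun z hz => by
    rcases hD u w t z uw ut hz with h | h | h
    · exact absurd h hwt
    · exact Or.inl h.symm
    · exact Or.inr h.symm
  have Nv : ∀ z, G.Adj v z → z = w ∨ z = t := fun z hz => by
    rcases hD v w t z vw vt hz with h | h | h
    · exact absurd h hwt
    · exact Or.inl h.symm
    · exact Or.inr h.symm
  have Nw : ∀ z, G.Adj w z → z = u ∨ z = v := fun z hz => by
    rcases hD w u v z uw.symm vw.symm hz with h | h | h
    · exact absurd h huv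
    · exact Or.inl h.symm
    · exact Or.inr h.symm
  have Nt : ∀ z, G.Adj t z → z = u ∨ z = v := fun z hz => by
    rcases hD t u v z ut.symm vt.symm hz with h | h | h
    · exact absurd h huv
    · exact Or.inl h.symm
    · exact Or.inr h.symm
  have fuw : f u ≠ f w := h0 u w uw
  have fut : f u ≠ f t := h0 u t ut
  -- the block of u
  obtain ⟨p, q, hpq, hpqe⟩ : ∃ p q : V, p ≠ q ∧
      (((univ.filter (fun x => f x = f u)).erase u).erase v) = {p, q} := by
    apply Finset.card_eq_two.1
    rw [Finset.card_erase_of_mem, Finset.card_erase_of_mem, hB u]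
    · simp
    · simp [fuv, huv.symm]
  have hS : ∀ y, (y ≠ v ∧ y ≠ u ∧ f y = f u) ↔ (y = p ∨ y = q) := fun y => by
    have h := Finset.ext_iff.1 hpqe y
    simpa only [mem_erase, mem_filter, mem_univ, true_and, mem_insert, mem_singleton, ne_eq]
      using h
  obtain ⟨pv, pu, fp⟩ := (hS p).2 (Or.inl rfl)
  obtain ⟨qv, qu, fq⟩ := (hS q).2 (Or.inr rfl)
  have hS' : ∀ y, f y = f u → y = u ∨ y = v ∨ y = p ∨ y = q := fun y hy => by
    by_cases h1 : y = u
    · exact Or.inl h1
    · by_cases h2 : y = v
      · exact Or.inr (Or.inl h2)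
      · exact Or.inr (Or.inr ((hS y).1 ⟨h2, h1, hy⟩))
  have neF : ∀ {a b : V}, f a ≠ f b → a ≠ b := fun h e => h (by rw [e])
  have pw : p ≠ w := neF (by rw [fp]; exact fuw)
  have pt : p ≠ t := neF (by rw [fp]; exact fut)
  have qw : q ≠ w := neF (by rw [fq]; exact fuw)
  have qt : q ≠ t := neF (by rw [fq]; exact fut)
  have wu : w ≠ u := (neF fuw).symm
  have tu : t ≠ u := (neF fut).symm
  have wv : w ≠ v := (neF (by rw [← fuv]; exact fuw)).symm
  have tv : t ≠ v := (neF (by rw [← fuv]; exact fut)).symm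
  -- the smaller instance
  set P : V → Prop := fun x => x ≠ u ∧ x ≠ v ∧ x ≠ w ∧ x ≠ t with hP
  set g : V → β := fun y => if y = p then f w else if y = q then f t else f y with hg
  have gp : g p = f w := by simp [hg]
  have gq : g q = f t := by simp [hg, hpq.symm]
  have gy : ∀ y, y ≠ p → y ≠ q → g y = f y := fun y h1 h2 => by simp [hg, h1, h2]
  have Pp : P p := ⟨pu, pv, pw, pt⟩
  have Pq : P q := ⟨qu, qv, qw, qt⟩
  have fib_w : (univ.filter (fun y : V => P y ∧ g y = f w)).card = 4 := by
    have e : (univ.filter (fun y : V => P y ∧ g y = f w)) =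
        insert p ((univ.filter (fun y => f y = f w)).erase w) := by
      ext y
      simp only [mem_filter, mem_univ, true_and, mem_insert, mem_erase]
      constructor
      · rintro ⟨⟨h1, h2, h3, h4⟩, h5⟩
        by_cases hyp : y = p
        · exact Or.inl hyp
        · by_cases hyq : y = q
          · rw [hyq, gq] at h5
            exact absurd h5.symm fwt
          · rw [gy y hyp hyq] at h5
            exact Or.inr ⟨h3, h5⟩
      · rintro (rfl | ⟨h1, h2⟩)
        · exact ⟨Pp, gp⟩
        · have a1 : y ≠ u := neF (by rw [h2]; exact fuw.symm)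
          have a2 : y ≠ v := neF (by rw [h2, ← fuv]; exact fuw.symm)
          have a3 : y ≠ t := neF (by rw [h2]; exact fwt)
          have a4 : y ≠ p := neF (by rw [h2, fp]; exact fuw.symm)
          have a5 : y ≠ q := neF (by rw [h2, fq]; exact fuw.symm)
          exact ⟨⟨a1, a2, h1, a3⟩, by rw [gy y a4 a5, h2]⟩
    rw [e, Finset.card_insert_of_notMem, Finset.card_erase_of_mem, hB w]
    · simp
    · simp only [mem_erase, mem_filter, mem_univ, true_and, not_and]
      intro _ h
      rw [fp] at h
      exact fuw h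
  have fib_t : (univ.filter (fun y : V => P y ∧ g y = f t)).card = 4 := by
    have e : (univ.filter (fun y : V => P y ∧ g y = f t)) =
        insert q ((univ.filter (fun y => f y = f t)).erase t) := by
      ext y
      simp only [mem_filter, mem_univ, true_and, mem_insert, mem_erase]
      constructor
      · rintro ⟨⟨h1, h2, h3, h4⟩, h5⟩
        by_cases hyq : y = q
        · exact Or.inl hyq
        · by_cases hyp : y = p
          · rw [hyp, gp] at h5
            exact absurd h5 fwt
          · rw [gy y hyp hyq] at h5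
            exact Or.inr ⟨h4, h5⟩
      · rintro (rfl | ⟨h1, h2⟩)
        · exact ⟨Pq, gq⟩
        · have a1 : y ≠ u := neF (by rw [h2]; exact fut.symm)
          have a2 : y ≠ v := neF (by rw [h2, ← fuv]; exact fut.symm)
          have a3 : y ≠ w := neF (by rw [h2]; exact fwt.symm)
          have a4 : y ≠ p := neF (by rw [h2, fp]; exact fut.symm)
          have a5 : y ≠ q := neF (by rw [h2, fq]; exact fut.symm)
          exact ⟨⟨a1, a2, a3, h1⟩, by rw [gy y a4 a5, h2]⟩
    rw [e, Finset.card_insert_of_notMem, Finset.card_erase_of_mem, hB t]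
    · simp
    · simp only [mem_erase, mem_filter, mem_univ, true_and, not_and]
      intro _ h
      rw [fq] at h
      exact fut h
  have fib : ∀ x, P x → (univ.filter (fun y : V => P y ∧ g y = g x)).card = 4 := by
    intro x hx
    by_cases hxw : g x = f w
    · rw [hxw]; exact fib_w
    · by_cases hxt : g x = f t
      · rw [hxt]; exact fib_t
      · have xp : x ≠ p := fun e => hxw (by rw [e, gp])
        have xq : x ≠ q := fun e => hxt (by rw [e, gq])
        rw [gy x xp xq] at hxw hxt ⊢
        have xu : f x ≠ f u := fun e => by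
          rcases hS' x e with h | h | h | h
          · exact hx.1 h
          · exact hx.2.1 h
          · exact xp h
          · exact xq h
        have e : (univ.filter (fun y : V => P y ∧ g y = f x)) =
            univ.filter (fun y => f y = f x) := by
          ext y
          simp only [mem_filter, mem_univ, true_and]
          constructor
          · rintro ⟨h1, h2⟩
            by_cases hyp : y = p
            · rw [hyp, gp] at h2; exact absurd h2.symm hxw
            · by_cases hyq : y = q
              · rw [hyq, gq] at h2; exact absurd h2.symm hxt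
              · rwa [gy y hyp hyq] at h2
          · intro h
            have a1 : y ≠ u := neF (by rw [h]; exact xu)
            have a2 : y ≠ v := neF (by rw [h, ← fuv]; exact xu)
            have a3 : y ≠ w := neF (by rw [h]; exact hxw)
            have a4 : y ≠ t := neF (by rw [h]; exact hxt)
            have a5 : y ≠ p := neF (by rw [h, fp]; exact xu)
            have a6 : y ≠ q := neF (by rw [h, fq]; exact xu)
            exact ⟨⟨a1, a2, a3, a4⟩, by rw [gy y a5 a6, h]⟩
        rw [e]
        exact hB x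
  obtain ⟨c', hc1, hc2⟩ := hA {x // P x} β (G.comap Subtype.val) (fun y => g y.1)
    (Fintype.card_subtype_lt (x := u) (fun h => h.1 rfl))
    (fun x a b c h1 h2 h3 => by
      rcases hD x.1 a.1 b.1 c.1 h1 h2 h3 with h | h | h
      · exact Or.inl (Subtype.ext h)
      · exact Or.inr (Or.inl (Subtype.ext h))
      · exact Or.inr (Or.inr (Subtype.ext h)))
    (fun x => by
      rw [card_sub P g (g x.1)]
      exact fib x.1 x.2)
  -- the colouring of the smaller instance as a function on V
  obtain ⟨c0, hc0⟩ : ∃ c0 : V → Fin 4, ∀ (y : V) (h : P y), c0 y = c' ⟨y, h⟩ :=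
    ⟨fun y => if h : P y then c' ⟨y, h⟩ else 0, fun y h => by simp only [h, dif_pos]⟩
  have k1 : ∀ y z, P y → P z → G.Adj y z → c0 y ≠ c0 z := fun y z hy hz h => by
    rw [hc0 y hy, hc0 z hz]
    exact hc1 ⟨y, hy⟩ ⟨z, hz⟩ h
  have k2 : ∀ y z, P y → P z → g y = g z → y ≠ z → c0 y ≠ c0 z := fun y z hy hz h hne => by
    rw [hc0 y hy, hc0 z hz]
    exact hc2 ⟨y, hy⟩ ⟨z, hz⟩ h (fun e => hne (congrArg Subtype.val e))
  -- neighbours of q
  have nq : ∀ z, G.Adj q z → P z ∧ z ≠ q := fun z hz => by
    refine ⟨⟨fun e => ?_, fun e => ?_, fun e => ?_, fun e => ?_⟩, fun e => ?_⟩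
    · rw [e] at hz
      rcases Nu q hz.symm with h | h
      · exact qw h
      · exact qt h
    · rw [e] at hz
      rcases Nv q hz.symm with h | h
      · exact qw h
      · exact qt h
    · rw [e] at hz
      rcases Nw q hz.symm with h | h
      · exact qu h
      · exact qv h
    · rw [e] at hz
      rcases Nt q hz.symm with h | h
      · exact qu h
      · exact qv h
    · rw [e] at hz
      exact G.loopless.irrefl q hz
  obtain ⟨ε, a, b, e1, e2, ab, a1, a2, a3, b1, b2, b3⟩ : ∃ ε a b : Fin 4, ε ≠ c0 p ∧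
      (∀ z, G.Adj q z → ε ≠ c0 z) ∧ a ≠ b ∧ a ≠ c0 p ∧ a ≠ c0 q ∧ a ≠ ε ∧
      b ≠ c0 p ∧ b ≠ c0 q ∧ b ≠ ε := by
    by_cases h : c0 p = c0 q
    · obtain ⟨z1, z2, hz⟩ := two_nbrs hD q
      obtain ⟨ε, e1, e2, e3⟩ := fin4_three (c0 p) (c0 z1) (c0 z2)
      obtain ⟨a, b, ab, a1, a2, b1, b2⟩ := fin4_two (c0 p) ε
      refine ⟨ε, a, b, e1, fun z hqz => ?_, ab, a1, h ▸ a1, a2, b1, h ▸ b1, b2⟩
      rcases hz z hqz with h | h
      · rw [h]; exact e2
      · rw [h]; exact e3
    · obtain ⟨a, b, ab, a1, a2, b1, b2⟩ := fin4_two (c0 p) (c0 q)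
      exact ⟨c0 q, a, b, fun e => h e.symm, fun z hqz => k1 q z Pq (nq z hqz).1 hqz, ab, a1, a2,
        a2, b1, b2, b2⟩
  -- the final colouring
  obtain ⟨c, cu, cv, cw, ct, cq, cy⟩ : ∃ c : V → Fin 4, c u = a ∧ c v = b ∧ c w = c0 p ∧
      c t = c0 q ∧ c q = ε ∧ ∀ y, P y → y ≠ q → c y = c0 y := by
    refine ⟨fun y => if y = u then a else if y = v then b else if y = w then c0 p else
      if y = t then c0 q else if y = q then ε else c0 y, ?_, ?_, ?_, ?_, ?_, ?_⟩
    · simp
    · simp [huv.symm]
    · simp [wu, wv]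
    · simp [tu, tv, hwt.symm]
    · simp [qu, qv, qw, qt]
    · rintro y ⟨h1, h2, h3, h4⟩ h5
      simp [h1, h2, h3, h4, h5]
  have cp : c p = c0 p := cy p Pp hpq
  have split : ∀ y, y = u ∨ y = v ∨ y = w ∨ y = t ∨ y = q ∨ (P y ∧ y ≠ q) := fun y => by
    by_cases h1 : y = u
    · exact Or.inl h1
    by_cases h2 : y = v
    · exact Or.inr (Or.inl h2)
    by_cases h3 : y = w
    · exact Or.inr (Or.inr (Or.inl h3))
    by_cases h4 : y = t
    · exact Or.inr (Or.inr (Or.inr (Or.inl h4)))
    by_cases h5 : y = q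
    · exact Or.inr (Or.inr (Or.inr (Or.inr (Or.inl h5))))
    exact Or.inr (Or.inr (Or.inr (Or.inr (Or.inr ⟨⟨h1, h2, h3, h4⟩, h5⟩))))
  have s1 : ∀ y z, (y = u ∨ y = v ∨ y = w ∨ y = t ∨ y = q) → G.Adj y z → c y ≠ c z := by
    rintro y z (rfl | rfl | rfl | rfl | rfl) h
    · rcases Nu z h with rfl | rfl
      · rw [cu, cw]; exact a1
      · rw [cu, ct]; exact a2
    · rcases Nv z h with rfl | rfl
      · rw [cv, cw]; exact b1
      · rw [cv, ct]; exact b2
    · rcases Nw z h with rfl | rfl
      · rw [cu, cw]; exact a1.symm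
      · rw [cv, cw]; exact b1.symm
    · rcases Nt z h with rfl | rfl
      · rw [cu, ct]; exact a2.symm
      · rw [cv, ct]; exact b2.symm
    · rw [cq, cy z (nq z h).1 (nq z h).2]
      exact e2 z h
  have s2 : ∀ y z, (y = u ∨ y = v ∨ y = w ∨ y = t ∨ y = q) → f y = f z → y ≠ z →
      c y ≠ c z := by
    rintro y z (rfl | rfl | rfl | rfl | rfl) h hne
    · rcases hS' z h.symm with rfl | rfl | rfl | rfl
      · exact absurd rfl hne
      · rw [cu, cv]; exact ab
      · rw [cu, cp]; exact a1
      · rw [cu, cq]; exact a3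
    · rcases hS' z (h.symm.trans fuv.symm) with rfl | rfl | rfl | rfl
      · rw [cu, cv]; exact ab.symm
      · exact absurd rfl hne
      · rw [cv, cp]; exact b1
      · rw [cv, cq]; exact b3
    · have x1 : z ≠ u := neF (by rw [← h]; exact fuw.symm)
      have x2 : z ≠ v := neF (by rw [← h, ← fuv]; exact fuw.symm)
      have x3 : z ≠ t := neF (by rw [← h]; exact fwt)
      have x4 : z ≠ p := neF (by rw [← h, fp]; exact fuw.symm)
      have x5 : z ≠ q := neF (by rw [← h, fq]; exact fuw.symm)
      have Pz : P z := ⟨x1, x2, hne.symm, x3⟩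
      rw [cw, cy z Pz x5]
      exact k2 p z Pp Pz (by rw [gp, gy z x4 x5, h]) x4.symm
    · have x1 : z ≠ u := neF (by rw [← h]; exact fut.symm)
      have x2 : z ≠ v := neF (by rw [← h, ← fuv]; exact fut.symm)
      have x3 : z ≠ w := neF (by rw [← h]; exact fwt.symm)
      have x4 : z ≠ p := neF (by rw [← h, fp]; exact fut.symm)
      have x5 : z ≠ q := neF (by rw [← h, fq]; exact fut.symm)
      have Pz : P z := ⟨x1, x2, x3, hne.symm⟩
      rw [ct, cy z Pz x5]
      exact k2 q z Pq Pz (by rw [gq, gy z x4 x5, h]) x5.symm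
    · rcases hS' z (h.symm.trans fq) with rfl | rfl | rfl | rfl
      · rw [cu, cq]; exact a3.symm
      · rw [cv, cq]; exact b3.symm
      · rw [cq, cp]; exact e1
      · exact absurd rfl hne
  refine ⟨c, fun y z h => ?_, fun y z h hne => ?_⟩
  · rcases split y with hy | hy | hy | hy | hy | ⟨Py, yq⟩
    · exact s1 y z (by tauto) h
    · exact s1 y z (by tauto) h
    · exact s1 y z (by tauto) h
    · exact s1 y z (by tauto) h
    · exact s1 y z (by tauto) h
    · rcases split z with hz | hz | hz | hz | hz | ⟨Pz, zq⟩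
      · exact (s1 z y (by tauto) h.symm).symm
      · exact (s1 z y (by tauto) h.symm).symm
      · exact (s1 z y (by tauto) h.symm).symm
      · exact (s1 z y (by tauto) h.symm).symm
      · exact (s1 z y (by tauto) h.symm).symm
      · rw [cy y Py yq, cy z Pz zq]
        exact k1 y z Py Pz h
  · rcases split y with hy | hy | hy | hy | hy | ⟨Py, yq⟩
    · exact s2 y z (by tauto) h hne
    · exact s2 y z (by tauto) h hne
    · exact s2 y z (by tauto) h hne
    · exact s2 y z (by tauto) h hne
    · exact s2 y z (by tauto) h hne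
    · rcases split z with hz | hz | hz | hz | hz | ⟨Pz, zq⟩
      · exact (s2 z y (by tauto) h.symm hne.symm).symm
      · exact (s2 z y (by tauto) h.symm hne.symm).symm
      · exact (s2 z y (by tauto) h.symm hne.symm).symm
      · exact (s2 z y (by tauto) h.symm hne.symm).symm
      · exact (s2 z y (by tauto) h.symm hne.symm).symm
      · rw [cy y Py yq, cy z Pz zq]
        have yp : y ≠ p := fun e => by
          rw [e, fp] at h
          rcases hS' z h.symm with h' | h' | h' | h'
          · exact Pz.1 h'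
          · exact Pz.2.1 h'
          · exact hne (e.trans h'.symm)
          · exact zq h'
        have zp : z ≠ p := fun e => by
          rw [e, fp] at h
          rcases hS' y h with h' | h' | h' | h'
          · exact Py.1 h'
          · exact Py.2.1 h'
          · exact hne (h'.trans e.symm)
          · exact yq h'
        exact k2 y z Py Pz (by rw [gy y yp yq, gy z zp zq, h]) hne

end Pool.Agent.H50.S4
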